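import Pool.Agent.Y844.DM.Pal
import Pool.Agent.H847R3.SuppF

/-!
# Digit tests for the multiples of `e`, `π`, `√2` by palindromes and by integers with mirror-dependent digits

Definitions used, from `Pool.Agent.TH872.Transfer`: `IsPalindrome b k v`: `v` is a palindrome with exactly `k`
digits in base `b`; `num b k E`: the number of the palindromes with `k` digits in base `b` which have the
property `E`; `value b k κ 0 d z`: the integer `κ v`, where `v` has the digits `(d i).1` and `(d i).2` at the
position `i` and at the mirror position `k - 1 - i`, `i < k / 2`, and, if `k` is odd, the digit `z` in the middle;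
`Pairs b k η w`: the numbers `w i a` are distributions of pairs `a` of digits, and for `i ≥ 1` two independent
copies of the pair differ in BOTH digits with a probability of at least `η`; `Prob b k w p E`: the probability
of `E` if the pairs `d i` and the digit `z` are chosen independently with the distributions `w i` and `p`.
From Mathlib: `Liouville x`: `x` is a Liouville number (for every `n` there are integers `a` and `b > 1` with
`0 < |x - a / b| < 1 / b ^ n`).
-/

set_option autoImplicit false

namespace Pool.Agent.Results.MP_7e9a3a_nt.PalindromicMultiples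

open Finset MeasureTheory
open Pool.Agent.TH872.Tr (IsPalindrome num value Prob Pairs)

/-- `t` passes the test: for all `i < K` the fractional part of `q i ^ n i * t` lies in `[u i, v i)`. (If `u i` and
`v i` are consecutive multiples of `1 / q i ^ m`, this prescribes the digits of `t` at the places
`n i + 1, ..., n i + m` in base `q i`.) -/
def Test {K : ℕ} (q n : Fin K → ℕ) (u v : Fin K → ℝ) (t : ℝ) : Prop :=
  ∀ i, Int.fract ((q i : ℝ) ^ n i * t) ∈ Set.Ico (u i) (v i)

/-- The probability that a random real number in `[0, 1)` passes the test. -/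
noncomputable def expected {K : ℕ} (q n : Fin K → ℕ) (u v : Fin K → ℝ) : ℝ :=
  (volume {t : ℝ | t ∈ Set.Ico (0 : ℝ) 1 ∧ Test q n u v t}).toReal

lemma leb_eq {K : ℕ} (q n : Fin K → ℕ) (u v : Fin K → ℝ) :
    Pool.Agent.Y933.KD.Leb.real (Pool.Agent.Y933.KD.Ev q n u v) = expected q n u v := by
  unfold Measure.real Pool.Agent.Y933.KD.Leb expected Test
  rw [Measure.restrict_apply (Pool.Agent.Y933.KD.measurableSet_Ev q n u v)]
  congr 2
  ext t
  constructor
  · rintro ⟨h3, h4⟩
    exact ⟨h4, h3⟩
  · rintro ⟨h3, h4⟩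
    exact ⟨h4, h3⟩

/-- Let `x` be `e`, `π`, `√2` or any other irrational number which is not a Liouville number, let `b ≥ 2`, `η > 0`,
`B`, `K` and `0 < ε < 1` be fixed. There are `δ > 0` and `C` such that for all `k ≥ 1`, all integers `κ ≠ 0` with
`|κ| ≤ exp (k ^ (1 - ε))`, all real `y`, all bases `1 ≤ q i ≤ B`, all places `n i ≤ k ^ (1 - ε)` and all intervals
`[u i, v i)` in `[0, 1]`, `i < K`, the following holds.

* If `a` is a random integer with `k` digits in base `b`, the digits at the mirror positions `i` and `k - 1 - i`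
  forming independent pairs with arbitrary distributions `w i` for which, for `i ≥ 1`, both digits of two
  independent copies differ with a probability of at least `η`, the number `κ a x + y` passes the test (the fractional
  parts of `q i ^ n i * (κ a x + y)` are in `[u i, v i)` for all `i < K`) with the probability with which a random
  real number passes it, up to an error of at most `C k ^ (-δ)`.
* The same holds for the proportion of the palindromes `a` with `k` digits in base `b` for which `κ a x + y` passes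
  the test. -/
theorem result (x : ℝ) (hx : x = Real.exp 1 ∨ x = Real.pi ∨ x = √2 ∨ (Irrational x ∧ ¬ Liouville x)) (b : ℕ) (hb : 2 ≤ b)
    (η : ℝ) (hη : 0 < η) (B K : ℕ) (ε : ℝ) (hε : 0 < ε) (hε1 : ε < 1) :
    ∃ δ : ℝ, 0 < δ ∧ ∃ C : ℝ, ∀ k : ℕ, 1 ≤ k → ∀ (κ : ℤ) (y : ℝ), κ ≠ 0 → |(κ : ℝ)| ≤ Real.exp ((k : ℝ) ^ (1 - ε)) →
      ∀ q n : Fin K → ℕ, (∀ i, 1 ≤ q i ∧ q i ≤ B) → (∀ i, (n i : ℝ) ≤ (k : ℝ) ^ (1 - ε)) →
      ∀ u v : Fin K → ℝ, (∀ i, 0 ≤ u i) → (∀ i, v i ≤ 1) →
      (∀ (w : ℕ → ℕ × ℕ → ℝ) (p : ℕ → ℝ), Pairs b k η w → (∀ a, 0 ≤ p a) → ∑ a ∈ range b, p a = 1 →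
        |Prob b k w p (fun d z => Test q n u v ((value b k κ 0 d z : ℝ) * x + y)) - expected q n u v| ≤ C * (k : ℝ) ^ (-δ)) ∧
      |(num b k (fun a => Test q n u v (((κ * a : ℤ) : ℝ) * x + y)) : ℝ) - num b k (fun _ => True) * expected q n u v| ≤
        num b k (fun _ => True) * (C * (k : ℝ) ^ (-δ)) := by
  have hx' : Irrational x ∧ ¬ Liouville x := by
    rcases hx with rfl | rfl | rfl | h
    · exact Pool.Agent.H847R3.XpXq.e_good
    · exact Pool.Agent.H847R3.XpXq.pi_good
    · exact Pool.Agent.H847R3.XpXq.sqrt_two_good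
    · exact h
  obtain ⟨τ, hτ⟩ := Pool.Agent.Y844.DM.dio_of x hx'.1 hx'.2
  obtain ⟨δ, hδ, C, h⟩ := Pool.Agent.Y844.DM.pal_tests b hb η hη B K ε hε hε1 τ
  refine ⟨δ, hδ, C, fun k hk κ y hκ hκ1 q n hq hn u v hu hv => ?_⟩
  have key := h k hk x hτ κ y q n u v ⟨hκ, hκ1, hq, hn, hu, hv⟩
  rw [leb_eq] at key
  exact key

end Pool.Agent.Results.MP_7e9a3a_nt.PalindromicMultiples
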