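import Mathlib
import Pool.Agent.Y934.Multi
import Pool.Agent.TH768.DG.Exp

/-!
All blocks of digits occur often in the expansions of most of the numbers `P(e)`, `P` a polynomial
with integer coefficients, and more generally of most integer combinations of powers of `e`.
-/

set_option autoImplicit false

open Finset Filter

namespace Pool.Agent.Results.MP_7e9a3a_nt.PolynomialsInE

/-- the number of places `i < n` such that the `k` digits of `z` in base `b` after the `i`-th one are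
`w 0, …, w (k - 1)` (the `j`-th digit of `z` behind the point is `⌊z b ^ j⌋ mod b`) -/
noncomputable def count (b k : ℕ) (w : Fin k → Fin b) (z : ℝ) (n : ℕ) : ℕ :=
  {i : ℕ | i < n ∧ ∀ s : Fin k, ⌊z * (b : ℝ) ^ (i + s + 1)⌋ % (b : ℤ) = ((w s : ℕ) : ℤ)}.ncard

lemma count_eq (b k : ℕ) (w : Fin k → Fin b) (y : ℝ) (n : ℕ) :
    count b k w y n = Pool.Agent.W226.MP.occ b k w y 0 n := by
  classical
  unfold count Pool.Agent.W226.MP.occ Pool.Agent.W226.MP.OccursAt Pool.Agent.W226.MP.digit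
  rw [← Set.ncard_coe_finset]
  congr 1
  ext i
  simp only [Set.mem_ofPred_eq, Finset.coe_filter, Finset.mem_range, zero_add]

lemma irr {d : ℕ} (κ : Fin d → ℤ) (hκ : Function.Injective κ) (h0 : ∀ j, κ j ≠ 0) (j : Fin d) :
    Irrational (Real.exp (κ j)) := by
  obtain ⟨c, hc, h⟩ := Pool.Agent.TH768.DG.normal_exp κ hκ h0 1 one_pos
  rintro ⟨r, hr⟩
  have h1 := h (-r.num) (Pi.single j (r.den : ℤ)) (Or.inr (by
    intro h2
    have := congrFun h2 j
    simp at this)) (1 + |(r.num : ℝ)| + r.den) (by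
      have := abs_nonneg (r.num : ℝ)
      have : (0 : ℝ) ≤ r.den := Nat.cast_nonneg _
      linarith) (by
      push_cast
      rw [abs_neg]
      have : (0 : ℝ) ≤ r.den := Nat.cast_nonneg _
      linarith) (fun s => by
      have h3 : |((Pi.single j (r.den : ℤ) : Fin d → ℤ) s : ℝ)| ≤ r.den := by
        by_cases hs : s = j
        · subst hs
          simp
        · rw [Pi.single_eq_of_ne hs]
          simp
      have := abs_nonneg (r.num : ℝ)
      linarith)
  have h2 : ∑ s, ((Pi.single j (r.den : ℤ) : Fin d → ℤ) s : ℝ) * Real.exp (κ s) = r.num := by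
    rw [Finset.sum_eq_single j]
    · rw [Pi.single_eq_same, ← hr]
      have := Rat.mul_den_eq_num r
      have h3 : (r : ℝ) * r.den = r.num := by exact_mod_cast this
      push_cast
      linarith
    · intro s _ hs
      rw [Pi.single_eq_of_ne hs]
      simp
    · intro hj
      exact absurd (mem_univ j) hj
  rw [h2] at h1
  push_cast at h1
  rw [neg_add_cancel, abs_zero, mul_zero] at h1
  linarith

/-- Let `κ_1, …, κ_d` be distinct nonzero integers, `d ≥ 1` (for instance `κ_j = j`), `b ≥ 2`, `k ≥ 1`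
and `0 < ε < 1`. There are `c, C > 0` such that for all real `y`, all `M ≥ 2` and all `n`, and for all
but at most `C M ^ (d - c)` of the integer vectors `a` with `0 ≤ a_j < M`, every block of `k` digits in
base `b` occurs at least `(1 - ε) b ^ (-k) log_b M log (n / (C log M)) / log (1 + 1 / d)` times at the
first `n` places of `y + a_1 e ^ κ_1 + ⋯ + a_d e ^ κ_d`. -/
theorem result (d b k : ℕ) (hd : 1 ≤ d) (κ : Fin d → ℤ) (hκ : Function.Injective κ)
    (h0 : ∀ j, κ j ≠ 0) (hb : 2 ≤ b) (hk : 1 ≤ k) (ε : ℝ) (hε : 0 < ε) (hε1 : ε < 1) :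
    ∃ c C : ℝ, 0 < c ∧ 0 < C ∧ ∀ (y : ℝ) (M n : ℕ), 2 ≤ M →
      (({a : Fin d → ℕ | (∀ j, a j < M) ∧ ¬ ∀ w : Fin k → Fin b,
        (1 - ε) * ((b : ℝ) ^ k)⁻¹ * Real.logb b M *
            (Real.log (n / (C * Real.log M)) / Real.log (1 + 1 / d)) ≤
          (count b k w (y + ∑ j, a j * Real.exp (κ j)) n : ℝ)}.ncard : ℕ) : ℝ) ≤
        C * (M : ℝ) ^ ((d : ℝ) - c) := by
  classical
  obtain ⟨d, rfl⟩ : ∃ d', d = d' + 1 := ⟨d - 1, by omega⟩
  have hb1 : (1 : ℝ) < b := by exact_mod_cast (by omega : 1 < b)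
  have hlb : 0 < Real.log b := Real.log_pos hb1
  have hdR : (0 : ℝ) < ((d + 1 : ℕ) : ℝ) := by positivity
  set B : ℝ := 1 + 1 / ((d + 1 : ℕ) : ℝ) with hB
  have hB1 : 1 < B := by
    have : (0 : ℝ) < 1 / ((d + 1 : ℕ) : ℝ) := by positivity
    linarith
  have hB0 : 0 < B := by linarith
  have hlB : 0 < Real.log B := Real.log_pos hB1
  -- the exponent
  obtain ⟨τ, hτ, hτ2⟩ : ∃ τ : ℝ, 1 / ((d + 1 : ℕ) : ℝ) < τ ∧
      (1 - ε) * Real.log (1 + τ) ≤ (1 - ε / 2) * Real.log B := by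
    refine ⟨B ^ (1 + ε / 2) - 1, ?_, ?_⟩
    · have : B ^ (1 : ℝ) < B ^ (1 + ε / 2) :=
        Real.rpow_lt_rpow_of_exponent_lt hB1 (by linarith)
      rw [Real.rpow_one] at this
      linarith
    · rw [add_sub_cancel, Real.log_rpow hB0, ← mul_assoc]
      refine mul_le_mul_of_nonneg_right ?_ hlB.le
      nlinarith
  have hτ0 : 0 < τ := lt_trans (by positivity) hτ
  have hη : 0 < ((d + 1 : ℕ) : ℝ) * τ - 1 := by
    rw [div_lt_iff₀ hdR] at hτ
    linarith
  obtain ⟨c0, hc0, hm⟩ := Pool.Agent.TH768.DG.normal_exp κ hκ h0 _ hη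
  obtain ⟨c1, hc1, hm1⟩ := Pool.Agent.TH768.DG.transfer (by omega) _ _ c0 (by linarith) hc0 hm
  have hm2 : ∀ q : ℕ, 1 ≤ q → ∀ p : Fin (d + 1) → ℤ, ∃ j, c1 ≤ (q : ℝ) ^ τ *
      |q * Real.exp (κ j) - p j| := by
    intro q hq p
    obtain ⟨j, hj⟩ := hm1 q hq p
    refine ⟨j, ?_⟩
    rw [Real.rpow_zero, mul_one] at hj
    have e1 : (((d + 1 : ℕ) : ℝ) + (((d + 1 : ℕ) : ℝ) * τ - 1) + 1) / ((d + 1 : ℕ) : ℝ) - 1 = τ := by
      field_simp
      ring
    rw [e1] at hj
    exact hj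
  obtain ⟨c, C, hc, hC, h⟩ := Pool.Agent.Y934.multi (fun j => Real.exp (κ j)) τ c1
    (irr κ hκ h0) hτ0 hc1 hm2 b k hb hk (ε / 2) (by linarith) (by linarith)
  refine ⟨c, C, hc, hC, fun y M n hM => ?_⟩
  have e0 : (((d + 1 : ℕ) : ℝ) - c) = (d : ℝ) + 1 - c := by push_cast; ring
  rw [e0]
  refine le_trans (Nat.cast_le.2 ?_) (h y M n hM)
  rw [← Finset.card_image_of_injective (f := fun (a : Fin (d + 1) → Fin M) (j : Fin (d + 1)) =>
    ((a j : Fin M) : ℕ)) _ (fun a a' haa => by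
      funext j
      exact Fin.ext (congrFun haa j)), ← Set.ncard_coe_finset]
  refine Set.ncard_le_ncard ?_ (Finset.finite_toSet _)
  rintro a ⟨ha, h2⟩
  push Not at h2
  obtain ⟨w, hw⟩ := h2
  rw [count_eq] at hw
  rw [Finset.mem_coe, Finset.mem_image]
  refine ⟨fun j => ⟨a j, ha j⟩, ?_, rfl⟩
  rw [Finset.mem_filter]
  refine ⟨mem_univ _, w, lt_of_lt_of_le hw ?_⟩
  have hM2 : (2 : ℝ) ≤ M := by exact_mod_cast hM
  have hlM : 0 < Real.log M := Real.log_pos (by linarith)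
  have hbk : 0 < (b : ℝ) ^ k := by positivity
  set T : ℝ := Real.log (n / (C * Real.log M)) with hT
  have hlτ : 0 < Real.log (1 + τ) := Real.log_pos (by linarith)
  have hT0 : 0 ≤ T := by
    by_contra hneg
    push Not at hneg
    have h1 : (0 : ℝ) ≤ (Pool.Agent.W226.MP.occ b k w (y + ∑ j, a j * Real.exp (κ j)) 0 n : ℝ) :=
      Nat.cast_nonneg _
    have h3 : (1 - ε) * ((b : ℝ) ^ k)⁻¹ * Real.logb b M * (T / Real.log B) ≤ 0 := by
      refine mul_nonpos_of_nonneg_of_nonpos ?_ ?_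
      · exact mul_nonneg (mul_nonneg (by linarith) (by positivity)) (div_nonneg hlM.le hlb.le)
      · exact div_nonpos_of_nonpos_of_nonneg hneg.le hlB.le
    linarith
  have e1 : (1 - ε) * ((b : ℝ) ^ k)⁻¹ * Real.logb b M * (T / Real.log B) =
      ((1 - ε) / Real.log B) * (Real.log M / ((b : ℝ) ^ k * Real.log b) * T) := by
    rw [Real.logb]
    field_simp
  have e2 : (1 - ε / 2) * (Real.log M / ((b : ℝ) ^ k * Real.log b)) *
          (T / Real.log (1 + τ)) =
      ((1 - ε / 2) / Real.log (1 + τ)) * (Real.log M / ((b : ℝ) ^ k * Real.log b) * T) := by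
    field_simp
  rw [e1, e2]
  refine mul_le_mul_of_nonneg_right ?_ (by positivity)
  rw [div_le_div_iff₀ hlB hlτ]
  exact hτ2

end Pool.Agent.Results.MP_7e9a3a_nt.PolynomialsInE
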