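import Pool.Agent.Y934.An.Val

/-!
# Values of analytic functions at rational points are normal up to a multiple of `log M` digits

Let `f` be a real analytic function on an interval `[α, β]` which is not a polynomial, for instance
`exp`, `arctan` or the square root (`e = exp 1`, `π / 4 = arctan 1`, `√2`). For all but at most
`M ^ (1 - c)` of the rational numbers `a / M` in `[α, β]` the number `ω f(a / M) + y` has, in every
base `b ≤ B` and in every window of digits inside the first `A log M` digits, every word of at most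
`w` digits with the right frequency, up to an error `ε log M` in the number of occurrences. Here `A`,
`B`, `w` are arbitrary and `ε > 0` is arbitrarily small; `c > 0` depends on them.
-/

set_option autoImplicit false

namespace Pool.Agent.Results.MP_7e9a3a_nt.ValuesAtRationals

/-- `f` is real analytic on a neighbourhood of `[α, β]` and there is no polynomial which is equal to
`f` on `[α, β]` -/
def Admissible (f : ℝ → ℝ) (α β : ℝ) : Prop :=
  AnalyticOnNhd ℝ f (Set.Icc α β) ∧ ¬ ∃ p : Polynomial ℝ, ∀ t ∈ Set.Icc α β, f t = p.eval t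

/-- the word of the `k` digits in base `b` of `x` which follow the first `n` digits after the point,
read as an integer between `0` and `b ^ k - 1` -/
noncomputable def word (b k n : ℕ) (x : ℝ) : ℕ :=
  ⌊(b : ℝ) ^ k * Int.fract ((b : ℝ) ^ n * x)⌋₊

lemma deriv_eq {f : ℝ → ℝ} {α β : ℝ} {p : Polynomial ℝ}
    (hp : ∀ t ∈ Set.Icc α β, f t = p.eval t) {t d : ℝ} (ht : t ∈ Set.Ioo α β)
    (hd : HasDerivAt f d t) : d = p.derivative.eval t := by
  have h1 : (fun s => p.eval s) =ᶠ[nhds t] f := by
    filter_upwards [Ioo_mem_nhds ht.1 ht.2] with s hs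
    exact (hp s ⟨hs.1.le, hs.2.le⟩).symm
  exact (hd.congr_of_eventuallyEq h1).unique (p.hasDerivAt t)

lemma adm_exp {α β : ℝ} (h : α < β) : Admissible Real.exp α β := by
  refine ⟨analyticOnNhd_rexp.mono (Set.subset_univ _), ?_⟩
  rintro ⟨p, hp⟩
  have h1 : p = p.derivative := by
    refine Polynomial.eq_of_infinite_eval_eq _ _ ((Set.Ioo_infinite h).mono fun t ht => ?_)
    have h2 := deriv_eq hp ht (Real.hasDerivAt_exp t)
    show p.eval t = p.derivative.eval t
    rw [← h2, hp t ⟨ht.1.le, ht.2.le⟩]
  have h3 : p.natDegree = 0 := by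
    by_contra h4
    have := Polynomial.natDegree_derivative_lt h4
    rw [← h1] at this
    exact lt_irrefl _ this
  rw [Polynomial.eq_C_of_natDegree_eq_zero h3, Polynomial.derivative_C] at h1
  have h5 := hp α ⟨le_rfl, h.le⟩
  rw [Polynomial.eq_C_of_natDegree_eq_zero h3, h1, Polynomial.eval_zero] at h5
  exact (Real.exp_pos α).ne' h5

lemma adm_arctan {α β : ℝ} (h : α < β) : Admissible Real.arctan α β := by
  refine ⟨fun t _ => ContDiffAt.analyticAt Real.contDiff_arctan.contDiffAt, ?_⟩
  rintro ⟨p, hp⟩
  have h1 : p.derivative * (1 + Polynomial.X ^ 2) = 1 := by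
    refine Polynomial.eq_of_infinite_eval_eq _ _ ((Set.Ioo_infinite h).mono fun t ht => ?_)
    have h2 := deriv_eq hp ht (Real.hasDerivAt_arctan t)
    show (p.derivative * (1 + Polynomial.X ^ 2)).eval t = (1 : Polynomial ℝ).eval t
    have h3 : (1 : ℝ) + t ^ 2 ≠ 0 := by positivity
    simp only [Polynomial.eval_mul, Polynomial.eval_add, Polynomial.eval_one, Polynomial.eval_pow,
      Polynomial.eval_X, ← h2]
    field_simp
  have h2 : IsUnit (1 + Polynomial.X ^ 2 : Polynomial ℝ) := .of_mul_eq_one_right _ h1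
  have h3 := Polynomial.natDegree_eq_zero_of_isUnit h2
  have h4 : (1 + Polynomial.X ^ 2 : Polynomial ℝ).natDegree = 2 := by compute_degree!
  omega

lemma adm_sqrt {α β : ℝ} (h0 : 0 < α) (h : α < β) : Admissible Real.sqrt α β := by
  refine ⟨fun t ht => ContDiffAt.analyticAt
    (Real.contDiffAt_sqrt (h0.trans_le ht.1).ne'), ?_⟩
  rintro ⟨p, hp⟩
  have h1 : p ^ 2 = Polynomial.X := by
    refine Polynomial.eq_of_infinite_eval_eq _ _ ((Set.Ioo_infinite h).mono fun t ht => ?_)
    show (p ^ 2).eval t = Polynomial.X.eval t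
    rw [Polynomial.eval_pow, Polynomial.eval_X, ← hp t ⟨ht.1.le, ht.2.le⟩,
      Real.sq_sqrt (h0.trans ht.1).le]
  have h2 := congrArg Polynomial.natDegree h1
  rw [Polynomial.natDegree_pow, Polynomial.natDegree_X] at h2
  omega

open Classical in
/-- (1) Let `f` be real analytic on `[α, β]`, `α < β`, and not equal to a polynomial on it, and let
`B`, `w`, `A`, `W` and `ε > 0` be given. There are `c > 0` and `M₀` such that for all `M ≥ M₀`, all
real `ω` with `1 ≤ |ω| ≤ M ^ W` and all real `y`, all but at most `M ^ (1 - c)` of the integers `a`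
with `α ≤ a / M ≤ β` have the following property: for every base `2 ≤ b ≤ B`, every word `j` of
`k ≤ w` digits and all `s`, `N` with `s + N ≤ A log M`, the number of the `i < N` such that the word
of `k` digits after the first `s + i` digits of `ω f(a / M) + y` is `j` differs from `N / b ^ k` by
at most `ε log M`. (2) This applies to the exponential function and to `arctan` on every interval
`[α, β]` with `α < β`, and to the square root if `0 < α < β`. -/
theorem result :
    (∀ (f : ℝ → ℝ) (α β : ℝ), α < β → Admissible f α β →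
      ∀ (B w : ℕ) (A W ε : ℝ), 0 < ε →
        ∃ c : ℝ, 0 < c ∧ ∃ M₀ : ℕ, ∀ M : ℕ, M₀ ≤ M → ∀ ω y : ℝ, 1 ≤ |ω| → |ω| ≤ (M : ℝ) ^ W →
          (((Finset.Icc ⌈α * M⌉ ⌊β * M⌋).filter (fun a : ℤ => ¬ ∀ b k j s N : ℕ, 2 ≤ b → b ≤ B →
            1 ≤ k → k ≤ w → j < b ^ k → (s : ℝ) + N ≤ A * Real.log M →
            |(((Finset.range N).filter (fun i => word b k (s + i) (ω * f (a / M) + y) = j)).card : ℝ)
              - N / (b : ℝ) ^ k| ≤ ε * Real.log M)).card : ℝ) ≤ (M : ℝ) ^ (1 - c)) ∧
    (∀ α β : ℝ, α < β → Admissible Real.exp α β ∧ Admissible Real.arctan α β) ∧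
    ∀ α β : ℝ, 0 < α → α < β → Admissible Real.sqrt α β := by
  refine ⟨?_, fun α β h => ⟨adm_exp h, adm_arctan h⟩, fun α β h0 h => adm_sqrt h0 h⟩
  intro f α β h hf B w A W ε hε
  exact Pool.Agent.Y934.An.normal_values h hf.1 hf.2 B w A W ε hε

end Pool.Agent.Results.MP_7e9a3a_nt.ValuesAtRationals
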