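import Mathlib
import Pool.Agent.Y934.Meas
import Pool.Agent.Y949.LW.Pi

/-!
Every word stands often in every long window of the digits of almost all the numbers
`a q ^ n e`, `a q ^ n log 2`, …
-/

set_option autoImplicit false

/-- Let `x = e` and `C > 1`, or `x = log 2` and `C > 3.211`, or let `x` be any real number with
`c ≤ Q ^ κ |Q x - P|` for all integers `P` and `Q ≥ 1`, where `c, κ > 0`, and `C > κ`. Let
`b, q ≥ 2`, where `b` and `q` are coprime or `b = q v` with `v ≥ 2` coprime to `q` (for `b = 10` the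
base `q` may be `2`, `5` or any number coprime to `10`), `ε, δ > 0`, and let `k, R` be arbitrary. If
`M` is large, then for all `J` and all `a ≥ 1` and for all but at most `δ M` of the numbers `n` with
`J ≤ n < J + M` the following holds: for every `u ≤ R (J + M)` every word of `k` digits in base `b`
stands at least `M ^ (1 - ε)` times in the window of the digits of `a q ^ n x` between the `u`-th
digit and the place `u + C (u + log_b (a q ^ n))`. The word with value `W` (its digits are those of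
`W` in base `b`, with leading zeros) stands in `y` right after the `i`-th digit if and only if
`⌊b ^ (i + k) y⌋ mod b ^ k = W`. -/
theorem Pool.Agent.Results.MP_7e9a3a_nt.WordsInLongWindows.result (x C : ℝ)
    (hx : (x = Real.exp 1 ∧ 1 < C) ∨ (x = Real.log 2 ∧ 3.211 < C) ∨
      ∃ κ c : ℝ, 0 < κ ∧ 0 < c ∧ κ < C ∧
        ∀ Q : ℕ, 1 ≤ Q → ∀ P : ℤ, c ≤ (Q : ℝ) ^ κ * |Q * x - P|)
    (b q : ℕ) (hb : 2 ≤ b) (hq : 2 ≤ q)
    (hbq : Nat.Coprime b q ∨ ∃ v : ℕ, 2 ≤ v ∧ Nat.Coprime q v ∧ b = q * v) (k R : ℕ)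
    (ε δ : ℝ) (hε : 0 < ε) (hδ : 0 < δ) :
    ∃ M₀ : ℕ, ∀ M J a : ℕ, M₀ ≤ M → 1 ≤ a →
      (({n : ℕ | J ≤ n ∧ n < J + M ∧ ¬ ∀ u : ℕ, u ≤ R * (J + M) → ∀ W : ℕ, W < b ^ k →
        (M : ℝ) ^ (1 - ε) ≤ (({i : ℕ | u ≤ i ∧
          (i : ℝ) + k ≤ u + C * (u + Real.log (a * (q : ℝ) ^ n) / Real.log b) ∧
          ⌊(b : ℝ) ^ (i + k) * (a * (q : ℝ) ^ n * x)⌋ % ((b : ℤ) ^ k) =
            (W : ℤ)}.ncard : ℕ) : ℝ)}.ncard : ℕ) : ℝ) ≤ δ * M := by
  classical
  obtain ⟨κ, hκ0, hκC, c0, hc0, hm⟩ : ∃ κ : ℝ, 0 < κ ∧ κ < C ∧ Pool.Agent.Y934.Meas κ x := by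
    rcases hx with ⟨rfl, hC⟩ | ⟨rfl, hC⟩ | ⟨κ, c, hκ, hc, hC, h⟩
    · exact ⟨(1 + C) / 2, by linarith, by linarith, Pool.Agent.Y934.meas_e (by linarith)⟩
    · exact ⟨3.211, by norm_num, hC, Pool.Agent.Y934.meas_log_two⟩
    · exact ⟨κ, hκ, hC, c, hc, h⟩
  obtain ⟨r, D, k0, -, hrb, hD, hdn⟩ := Pool.Agent.Y949.LW.exists_core hb hq hbq
  obtain ⟨M₀, hM₀⟩ := Pool.Agent.Y949.LW.words hb hq hrb hD hdn hκ0 hc0 hm k R hκC hε hδ
  refine ⟨M₀, fun M J a hM ha => ?_⟩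
  refine le_trans (Nat.cast_le.2 ?_) (hM₀ M J a hM ha)
  refine le_trans (Set.ncard_le_ncard ?_ ((Finset.finite_toSet _).image (fun t => J + t)))
    ((Set.ncard_image_le (Finset.finite_toSet _)).trans (Set.ncard_coe_finset _).le)
  rintro n ⟨h1, h2, h3⟩
  refine ⟨n - J, ?_, by simp only; omega⟩
  rw [Finset.mem_coe, Finset.mem_filter, Finset.mem_range]
  refine ⟨by omega, fun h4 => h3 fun u hu W hW => ?_⟩
  have h5 := h4 u hu W hW
  have e1 : J + (n - J) = n := by omega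
  rw [e1] at h5
  have haR : (0 : ℝ) < a := by exact_mod_cast ha
  have hqR : (0 : ℝ) < (q : ℝ) ^ n := by positivity
  have e2 : Real.log (a * (q : ℝ) ^ n) = Real.log a + (n : ℝ) * Real.log q := by
    rw [Real.log_mul haR.ne' hqR.ne', Real.log_pow]
  rw [e2]
  exact h5
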